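import Pool.Agent.E8helper30.MC.Stm

/-!
# MC, piece FRI: frame from a subgroup and an interval
-/

set_option autoImplicit false

namespace Pool.Agent.E8helper40.MC

open scoped Classical Pointwise
open Pool.Agent.E8helper30.MC

section

variable {G : Type} [AddCommGroup G]

/-- the elements `h + i x`, `h ∈ H`, `0 ≤ i < m` -/
noncomputable def SS [Fintype G] (H : AddSubgroup G) (x : G) (m : ℕ) : Finset G :=
  Finset.univ.filter fun g => ∃ i : ℤ, 0 ≤ i ∧ i < m ∧ g - i • x ∈ H

theorem mem_SS [Fintype G] {H : AddSubgroup G} {x : G} {m : ℕ} {g : G} :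
    g ∈ SS H x m ↔ ∃ i : ℤ, 0 ≤ i ∧ i < m ∧ g - i • x ∈ H := by
  simp [SS]

theorem rep_sub {H : AddSubgroup G} {x a b : G} {i j : ℤ} (ha : a - i • x ∈ H)
    (hb : b - j • x ∈ H) : (a - b) - (i - j) • x ∈ H := by
  have h : (a - b) - (i - j) • x = (a - i • x) - (b - j • x) := by
    rw [sub_smul]; abel
  rw [h]
  exact H.sub_mem ha hb

theorem rep_uniq {H : AddSubgroup G} {x : G} {p : ℕ} (hx : ∀ i : ℤ, i • x ∈ H ↔ (p : ℤ) ∣ i)
    {g : G} {i j : ℤ} (hi : g - i • x ∈ H) (hj : g - j • x ∈ H) (h : |i - j| < p) : i = j := by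
  have h1 := H.sub_mem hj hi
  have h2 : (g - j • x) - (g - i • x) = (i - j) • x := by
    rw [sub_smul]; abel
  rw [h2, hx] at h1
  have := Int.eq_zero_of_abs_lt_dvd h1 h
  linarith

theorem card_SS [Fintype G] {H : AddSubgroup G} {x : G} {p : ℕ}
    (hx : ∀ i : ℤ, i • x ∈ H ↔ (p : ℤ) ∣ i) {m : ℕ} (hm : m ≤ p) :
    (SS H x m).card = m * Nat.card H := by
  have h1 : SS H x m = ((Finset.range m) ×ˢ (Finset.univ : Finset H)).image
      (fun z => (z.2 : G) + (z.1 : ℤ) • x) := by
    ext g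
    rw [mem_SS, Finset.mem_image]
    constructor
    · rintro ⟨i, h0, h1, h2⟩
      refine ⟨(i.toNat, ⟨g - i • x, h2⟩), ?_, ?_⟩
      · rw [Finset.mem_product, Finset.mem_range]
        exact ⟨by simp only; omega, Finset.mem_univ _⟩
      · change g - i • x + ((i.toNat : ℕ) : ℤ) • x = g
        rw [Int.toNat_of_nonneg h0]
        abel
    · rintro ⟨⟨a, b⟩, hab, rfl⟩
      rw [Finset.mem_product, Finset.mem_range] at hab
      refine ⟨a, by positivity, by exact_mod_cast hab.1, ?_⟩
      change (b : G) + (a : ℤ) • x - (a : ℤ) • x ∈ H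
      rw [add_sub_cancel_right]
      exact b.2
  rw [h1, Finset.card_image_of_injOn, Finset.card_product, Finset.card_range, Finset.card_univ,
    Nat.card_eq_fintype_card]
  rintro ⟨i, a⟩ hi ⟨j, b⟩ hj heq
  have hi' : i < m := by
    have := (Finset.mem_product.1 (Finset.mem_coe.1 hi)).1
    simpa using this
  have hj' : j < m := by
    have := (Finset.mem_product.1 (Finset.mem_coe.1 hj)).1
    simpa using this
  have heq' : (a : G) + (i : ℤ) • x = (b : G) + (j : ℤ) • x := heq
  have e1 : ((a : G) + (i : ℤ) • x) - (i : ℤ) • x ∈ H := by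
    rw [add_sub_cancel_right]; exact a.2
  have e2 : ((a : G) + (i : ℤ) • x) - (j : ℤ) • x ∈ H := by
    rw [heq', add_sub_cancel_right]; exact b.2
  have hij : (i : ℤ) = j := rep_uniq hx e1 e2 (by rw [abs_lt]; constructor <;> omega)
  have hij' : i = j := by exact_mod_cast hij
  subst hij'
  have hab : (a : G) = b := add_right_cancel heq'
  rw [Prod.mk.injEq]
  exact ⟨rfl, Subtype.ext hab⟩

end

theorem t_FRI : S_FRI := by
  intro G _ _ H x p l hx hl hlp
  let _i : Fintype G := Fintype.ofFinite G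
  have hl0 : (0 : ℤ) < l := by exact_mod_cast hl
  have hlp' : 2 * (l : ℤ) ≤ p := by exact_mod_cast hlp
  -- the function
  let φ : G → ℤ := fun g =>
    if h : ∃ i : ℤ, -(l : ℤ) < i ∧ i < l ∧ g - i • x ∈ H then h.choose else 0
  have hφ : ∀ (g : G) (i : ℤ), -(l : ℤ) < i → i < l → g - i • x ∈ H → φ g = i := by
    intro g i h1 h2 h3
    have h : ∃ i : ℤ, -(l : ℤ) < i ∧ i < l ∧ g - i • x ∈ H := ⟨i, h1, h2, h3⟩
    have e : φ g = h.choose := dif_pos h
    rw [e]
    have hs := h.choose_spec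
    exact rep_uniq hx hs.2.2 h3 (by rw [abs_lt]; constructor <;> linarith [hs.1, hs.2.1])
  let I : Finset G := SS H x l
  let D : Finset G := Finset.univ.filter fun g => ∃ i : ℤ, -(l : ℤ) < i ∧ i < l ∧ g - i • x ∈ H
  have hI : ∀ g, g ∈ I ↔ ∃ i : ℤ, 0 ≤ i ∧ i < l ∧ g - i • x ∈ H := fun g => mem_SS
  have hD : ∀ g, g ∈ D ↔ ∃ i : ℤ, -(l : ℤ) < i ∧ i < l ∧ g - i • x ∈ H := by
    intro g
    simp [D]
  -- the subgroup generated by `H` and `x`
  let H' : AddSubgroup G :=
    { carrier := {g | ∃ i : ℤ, g - i • x ∈ H}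
      zero_mem' := ⟨0, by simp [H.zero_mem]⟩
      add_mem' := by
        rintro a b ⟨i, hi⟩ ⟨j, hj⟩
        refine ⟨i + j, ?_⟩
        have h : a + b - (i + j) • x = (a - i • x) + (b - j • x) := by
          rw [add_smul]; abel
        rw [h]
        exact H.add_mem hi hj
      neg_mem' := by
        rintro a ⟨i, hi⟩
        refine ⟨-i, ?_⟩
        have h : -a - (-i) • x = -(a - i • x) := by
          rw [neg_smul]; abel
        rw [h]
        exact H.neg_mem hi }
  have hH' : p * Nat.card H ≤ Nat.card H' := by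
    rw [← card_SS hx le_rfl]
    have h1 : SS H x p ⊆ Finset.univ.filter fun g => g ∈ H' := by
      intro g hg
      obtain ⟨i, -, -, hi⟩ := mem_SS.1 hg
      rw [Finset.mem_filter]
      exact ⟨Finset.mem_univ _, i, hi⟩
    refine (Finset.card_le_card h1).trans (le_of_eq ?_)
    rw [Nat.card_eq_fintype_card, Fintype.card_subtype]
  let X : Finset G := ((Finset.univ : Finset (G ⧸ H')) ×ˢ (Finset.range ((p - 1) / l + 1))).image
    (fun z => z.1.out + ((z.2 * l : ℕ) : ℤ) • x)
  refine ⟨I, D, X, φ, l, ⟨?_, ?_, ?_, ?_⟩, card_SS hx (by omega), ?_, ?_⟩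
  · intro g hg
    obtain ⟨i, h0, h1, h2⟩ := (hI g).1 hg
    rw [hφ g i (by linarith) h1 h2]
    exact ⟨h0, h1⟩
  · intro g hg w hw
    obtain ⟨i, h0, h1, h2⟩ := (hI g).1 hg
    obtain ⟨j, k0, k1, k2⟩ := (hI _).1 hw
    have h3 : w - (i - j) • x ∈ H := by
      have := rep_sub h2 k2
      rwa [sub_sub_cancel] at this
    have e1 := hφ g i (by linarith) h1 h2
    have e2 := hφ w (i - j) (by linarith) (by linarith) h3
    refine ⟨(hD w).2 ⟨i - j, by linarith, by linarith, h3⟩, ?_, ?_⟩
    · rw [e1, e2]; linarith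
    · rw [e1, e2]; linarith
  · intro g hg w hw h5 h6
    obtain ⟨i, h0, h1, h2⟩ := (hI g).1 hg
    obtain ⟨j, k0, k1, k2⟩ := (hD _).1 hw
    rw [hφ g i (by linarith) h1 h2, hφ w j k0 k1 k2] at h5
    rw [hφ g i (by linarith) h1 h2, hφ w j k0 k1 k2] at h6
    exact (hI _).2 ⟨i - j, by linarith, by linarith, rep_sub h2 k2⟩
  · have h1 : D ⊆ I ∪ I.image (fun g => g - (l : ℤ) • x) := by
      intro w hw
      obtain ⟨j, k0, k1, k2⟩ := (hD _).1 hw
      rw [Finset.mem_union]
      rcases le_or_gt 0 j with h | h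
      · left
        exact (hI _).2 ⟨j, h, k1, k2⟩
      · right
        rw [Finset.mem_image]
        refine ⟨w + (l : ℤ) • x, (hI _).2 ⟨j + l, by linarith, by linarith, ?_⟩, by abel⟩
        have : w + (l : ℤ) • x - (j + l) • x = w - j • x := by
          rw [add_smul]; abel
        rw [this]
        exact k2
    have h2 := Finset.card_le_card h1
    have h3 := Finset.card_union_le I (I.image (fun g => g - (l : ℤ) • x))
    have h4 := Finset.card_image_le (s := I) (f := fun g => g - (l : ℤ) • x)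
    omega
  · intro g
    have h1 : g - ((g : G ⧸ H').out) ∈ H' := by
      have h2 : ((g : G ⧸ H').out : G ⧸ H') = (g : G ⧸ H') := QuotientAddGroup.out_eq' _
      have h3 := QuotientAddGroup.eq.1 h2
      rwa [neg_add_eq_sub] at h3
    obtain ⟨i, hi⟩ := h1
    have hp0 : (0 : ℤ) < p := by linarith
    have hi' : (g - (g : G ⧸ H').out) - (i % p) • x ∈ H := by
      have h4 : (g - (g : G ⧸ H').out) - (i % p) • x =
          ((g - (g : G ⧸ H').out) - i • x) + ((p : ℤ) * (i / p)) • x := by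
        have h5 : i • x = ((i % p) + (p : ℤ) * (i / p)) • x := by rw [Int.emod_add_mul_ediv]
        rw [h5, add_smul]
        abel
      rw [h4]
      exact H.add_mem hi ((hx _).2 (dvd_mul_right _ _))
    have hr0 : 0 ≤ i % p := Int.emod_nonneg _ hp0.ne'
    have hr1 : i % p < p := Int.emod_lt_of_pos _ hp0
    obtain ⟨r, hr⟩ := Int.eq_ofNat_of_zero_le hr0
    rw [hr] at hi' hr1
    have hrp : r < p := by exact_mod_cast hr1
    have hdm : r % l + l * (r / l) = r := Nat.mod_add_div r l
    refine ⟨(g : G ⧸ H').out + ((r / l * l : ℕ) : ℤ) • x, ?_, ?_⟩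
    · rw [Finset.mem_image]
      refine ⟨((g : G ⧸ H'), r / l), ?_, rfl⟩
      rw [Finset.mem_product, Finset.mem_range]
      refine ⟨Finset.mem_univ _, ?_⟩
      have : r / l ≤ (p - 1) / l := Nat.div_le_div_right (by omega)
      exact Nat.lt_succ_of_le this
    · rw [hI]
      refine ⟨((r % l : ℕ) : ℤ), by positivity, by exact_mod_cast Nat.mod_lt r (by omega), ?_⟩
      have h6 : g - ((g : G ⧸ H').out + ((r / l * l : ℕ) : ℤ) • x) - ((r % l : ℕ) : ℤ) • x =
          (g - (g : G ⧸ H').out) - (r : ℤ) • x := by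
        have h7 : (r : ℤ) • x = (((r % l : ℕ) : ℤ) + ((r / l * l : ℕ) : ℤ)) • x := by
          congr 1
          rw [← Nat.cast_add]
          congr 1
          rw [mul_comm (r / l) l]
          exact hdm.symm
        rw [h7, add_smul]
        abel
      rw [h6]
      exact hi'
  · have h1 : X.card ≤ Nat.card (G ⧸ H') * ((p - 1) / l + 1) := by
      refine Finset.card_image_le.trans (le_of_eq ?_)
      rw [Finset.card_product, Finset.card_range, Finset.card_univ, Nat.card_eq_fintype_card]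
    have h2 : I.card = l * Nat.card H := card_SS hx (by omega)
    have h3 : Nat.card G = Nat.card (G ⧸ H') * Nat.card H' :=
      AddSubgroup.card_eq_card_quotient_mul_card_addSubgroup H'
    have h4 : ((p - 1) / l + 1) * l ≤ 2 * p := by
      have := Nat.div_mul_le_self (p - 1) l
      rw [add_mul, one_mul]
      omega
    calc X.card * I.card ≤ (Nat.card (G ⧸ H') * ((p - 1) / l + 1)) * (l * Nat.card H) := by
          rw [h2]
          exact Nat.mul_le_mul_right _ h1
      _ = Nat.card (G ⧸ H') * ((((p - 1) / l + 1) * l) * Nat.card H) := by ring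
      _ ≤ Nat.card (G ⧸ H') * ((2 * p) * Nat.card H) :=
          Nat.mul_le_mul_left _ (Nat.mul_le_mul_right _ h4)
      _ = 2 * (Nat.card (G ⧸ H') * (p * Nat.card H)) := by ring
      _ ≤ 2 * (Nat.card (G ⧸ H') * Nat.card H') :=
          Nat.mul_le_mul_left _ (Nat.mul_le_mul_left _ hH')
      _ = 2 * Nat.card G := by rw [h3]

end Pool.Agent.E8helper40.MC
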